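import Mathlib
import Pool.Agent.Lib.MP_1b4b80_lc.Main
import Pool.Agent.Lib.MP_1b4b80_lc.Jordan

set_option autoImplicit false

noncomputable section

namespace Pool.Agent.Results.MP_1b4b80_lc.TwoRational

open Set Filter Topology

/-- The point of the real plane with the given rational coordinates. -/
def pt (q : ℚ × ℚ) : ℝ × ℝ := (q.1, q.2)

/-- The closed edge from corner `i` to corner `i + 1`. -/
def edge {n : ℕ} (v : ZMod n → ℚ × ℚ) (i : ZMod n) : Set (ℝ × ℝ) :=
  segment ℝ (pt (v i)) (pt (v (i + 1)))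

/-- The closed polygonal curve is simple: the corners are distinct and two different edges meet
only in common end points. -/
def Simple {n : ℕ} (v : ZMod n → ℚ × ℚ) : Prop :=
  Function.Injective v ∧ ∀ i j, i ≠ j →
    edge v i ∩ edge v j ⊆ {pt (v i), pt (v (i + 1))} ∩ {pt (v j), pt (v (j + 1))}

/-- The closed region bounded by the curve: the curve together with the bounded components of
its complement. -/
def polygon {n : ℕ} (v : ZMod n → ℚ × ℚ) : Set (ℝ × ℝ) :=
  (⋃ i, edge v i) ∪ {z | Bornology.IsBounded (connectedComponentIn (⋃ i, edge v i)ᶜ z)}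

/-- `G` lies on the boundary of `P` and every point of `T` is visible in `P` from a point of `G`. -/
def Guards (P G T : Set (ℝ × ℝ)) : Prop :=
  G ⊆ frontier P ∧ ∀ z ∈ T, ∃ g ∈ G, segment ℝ g z ⊆ P

open Pool.Agent.Lib.MP_1b4b80_lc

theorem pt_inj : Function.Injective pt := fun _ _ h =>
  Prod.ext (Rat.cast_injective (congrArg Prod.fst h)) (Rat.cast_injective (congrArg Prod.snd h))

theorem one_ne {n : ℕ} (hn : 3 ≤ n) : (1 : ZMod n) ≠ 0 := fun h => by
  have := Nat.le_of_dvd one_pos ((ZMod.natCast_eq_zero_iff 1 n).1 (by simpa using h))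
  omega

theorem ends_ne {n : ℕ} (hn : 3 ≤ n) {v : ZMod n → ℚ × ℚ} (hv : Simple v) (i : ZMod n) :
    pt (v i) ≠ pt (v (i + 1)) := fun h => one_ne hn (by simpa using hv.1 (pt_inj h))

theorem edge_closed {n : ℕ} (v : ZMod n → ℚ × ℚ) (i : ZMod n) : IsCompact (edge v i) := by
  rw [edge, segment_eq_image']
  exact isCompact_Icc.image (by fun_prop)

theorem polygon_eq {n : ℕ} (v : ZMod n → ℚ × ℚ) : polygon v = (outside (⋃ i, edge v i))ᶜ := by
  ext z
  constructor
  · rintro (h | h)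
    · exact fun h1 => outside_sub h1 h
    · exact fun h1 => h1 h
  · exact fun h => Or.inr (not_not.1 h)

/-- The boundary of the polygon is the curve. -/
theorem frontier_polygon {n : ℕ} (hn : 3 ≤ n) {v : ZMod n → ℚ × ℚ} (hv : Simple v) :
    frontier (polygon v) = ⋃ i, edge v i := by
  have : NeZero n := ⟨by omega⟩
  rw [polygon_eq]
  refine frontier_inside (isCompact_iUnion (edge_closed v)) ?_ fun c hc => ?_
  · have h1 : ⋃ i, edge v i = ⋃ k : ℕ, edge v k :=
      ((ZMod.natCast_zmod_surjective (n := n)).iUnion_comp (edge v)).symm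
    rw [h1]
    refine IsConnected.iUnion_of_chain (fun k => (convex_segment _ _).isConnected
      ⟨_, left_mem_segment _ _ _⟩) fun k => ⟨pt (v (k + 1)), right_mem_segment _ _ _, ?_⟩
    simpa [edge] using left_mem_segment ℝ _ _
  have near : ∀ᶠ z in 𝓝 c, ∀ j, z ∈ edge v j → c ∈ edge v j := eventually_all.2 fun j => by
    by_cases h : c ∈ edge v j
    · exact Eventually.of_forall fun _ _ => h
    · filter_upwards [(edge_closed v j).isClosed.isOpen_compl.mem_nhds h] with z hz h1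
      exact absurd h1 hz
  by_cases hx : ∃ i, c = pt (v i)
  · obtain ⟨i, rfl⟩ := hx
    refine ⟨pt (v (i + 1)) - pt (v i), pt (v (i - 1)) - pt (v i),
      sub_ne_zero.2 (ends_ne hn hv i).symm, near.mono fun z hz h => ?_⟩
    obtain ⟨j, hj⟩ := mem_iUnion.1 h
    by_cases h1 : i = j
    · subst h1
      obtain ⟨t, t0, -, e⟩ := mem_seg.1 hj
      exact ⟨t, t0, Or.inl e⟩
    rcases (hv.2 i j h1 ⟨left_mem_segment _ _ _, hz j hj⟩).2 with h2 | h2
    · exact absurd (hv.1 (pt_inj h2)) h1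
    · obtain rfl : i = j + 1 := hv.1 (pt_inj h2)
      rw [edge, segment_symm] at hj
      obtain ⟨t, t0, -, e⟩ := mem_seg.1 hj
      exact ⟨t, t0, Or.inr (by simpa using e)⟩
  · push Not at hx
    obtain ⟨i, hi⟩ := mem_iUnion.1 hc
    refine ⟨pt (v (i + 1)) - pt (v i), pt (v i) - pt (v (i + 1)),
      sub_ne_zero.2 (ends_ne hn hv i).symm, near.mono fun z hz h => ?_⟩
    obtain ⟨j, hj⟩ := mem_iUnion.1 h
    obtain rfl : i = j := by
      by_contra h1
      exact (hv.2 i j h1 ⟨hi, hz j hj⟩).1.elim (hx _) (hx _)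
    obtain ⟨s, -, -, rfl⟩ := mem_seg.1 hi
    obtain ⟨t, -, -, rfl⟩ := mem_seg.1 hj
    rcases le_total s t with h1 | h1
    · exact ⟨t - s, sub_nonneg.2 h1, Or.inl (by module)⟩
    · exact ⟨s - t, sub_nonneg.2 h1, Or.inr (by module)⟩

theorem gal {n : ℕ} (hn : 3 ≤ n) {v : ZMod n → ℚ × ℚ} (hv : Simple v) : Gal (polygon v)
    {e | ∃ i, e = (pt (v i), pt (v (i + 1))) ∨ e = (pt (v (i + 1)), pt (v i))} := by
  have : NeZero n := ⟨by omega⟩
  have hC := isCompact_iUnion (edge_closed v)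
  have seg : ∀ {p q : ℝ × ℝ} {i : ZMod n}, (p, q) = (pt (v i), pt (v (i + 1))) ∨
      (p, q) = (pt (v (i + 1)), pt (v i)) → segment ℝ p q = edge v i := by
    rintro p q i (h | h) <;> obtain ⟨rfl, rfl⟩ := Prod.mk.inj h
    · rfl
    · exact segment_symm _ _ _
  refine ⟨?_, ?_, ?_, ?_, ?_, ?_, ?_, fun z => ?_, ?_⟩
  · refine ((finite_range fun i => (pt (v i), pt (v (i + 1)))).union
      (finite_range fun i => (pt (v (i + 1)), pt (v i)))).subset ?_
    rintro _ ⟨i, rfl | rfl⟩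
    · exact Or.inl ⟨i, rfl⟩
    · exact Or.inr ⟨i, rfl⟩
  · rintro p q ⟨i, h | h⟩ <;> obtain ⟨rfl, rfl⟩ := Prod.mk.inj h
    · exact ⟨i, Or.inr rfl⟩
    · exact ⟨i, Or.inl rfl⟩
  · rintro p q ⟨i, h | h⟩ <;> obtain ⟨rfl, rfl⟩ := Prod.mk.inj h <;>
      exact ⟨mem_K.2 ⟨_, rfl⟩, mem_K.2 ⟨_, rfl⟩⟩
  · rintro p q ⟨i, h | h⟩ <;> obtain ⟨rfl, rfl⟩ := Prod.mk.inj h
    · exact ends_ne hn hv i
    · exact (ends_ne hn hv i).symm
  · rintro p q p' q' c ⟨i, h⟩ ⟨j, h'⟩ h1 h2
    have on : ∀ z ∈ edge v i, ori p q z = 0 := by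
      intro z hz
      rw [← seg h] at hz
      obtain ⟨t, -, -, rfl⟩ := mem_seg.1 hz
      exact ori_self _ _ _
    by_cases h3 : i = j
    · subst h3
      exact ⟨on _ (seg h' ▸ left_mem_segment _ _ _), on _ (seg h' ▸ right_mem_segment _ _ _)⟩
    have h4 := (hv.2 i j h3 ⟨seg h ▸ openSegment_subset_segment _ _ _ h1, seg h' ▸ h2⟩).1
    have h5 := ends_ne hn hv i
    rcases h with h | h <;> obtain ⟨rfl, rfl⟩ := Prod.mk.inj h <;> rcases h4 with rfl | rfl
    · exact absurd (left_mem_openSegment_iff.1 h1) h5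
    · exact absurd (right_mem_openSegment_iff.1 h1) h5
    · exact absurd (right_mem_openSegment_iff.1 h1) h5.symm
    · exact absurd (left_mem_openSegment_iff.1 h1) h5.symm
  · have key : ∀ j : ZMod n, ∀ c, c ∈ segment ℝ (pt (v (j + 1))) (pt (v (j + 1 + 1))) →
        c ∈ segment ℝ (pt (v (j + 1))) (pt (v j)) → c = pt (v (j + 1)) := by
      intro j c h1 h2
      rw [segment_symm] at h2
      obtain ⟨h3, h4⟩ := hv.2 (j + 1) j (fun h => one_ne hn (by simpa using h)) ⟨h1, h2⟩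
      rcases h4 with rfl | h4
      · rcases h3 with h3 | h3
        · exact h3
        · have h5 : ((2 : ℕ) : ZMod n) = 0 := by
            have := hv.1 (pt_inj h3)
            push_cast
            linear_combination -this
          have := Nat.le_of_dvd two_pos ((ZMod.natCast_eq_zero_iff 2 n).1 h5)
          omega
      · exact h4
    rintro r w ⟨i, h | h⟩ <;> obtain ⟨rfl, rfl⟩ := Prod.mk.inj h
    · obtain ⟨j, rfl⟩ : ∃ j, i = j + 1 := ⟨i - 1, by ring⟩
      exact ⟨_, _, ⟨_, Or.inl rfl⟩, ⟨j, Or.inr rfl⟩, key j⟩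
    · exact ⟨_, _, ⟨_, Or.inl rfl⟩, ⟨i, Or.inr rfl⟩, key i⟩
  · rw [polygon_eq]
    exact Metric.isCompact_of_isClosed_isBounded (open_out hC.isClosed).isClosed_compl
      (far_out hC.isBounded).1
  · rw [frontier_polygon hn hv, mem_iUnion]
    constructor
    · rintro ⟨i, hi⟩
      exact ⟨_, ⟨i, Or.inl rfl⟩, hi⟩
    · rintro ⟨e, ⟨i, h⟩, hz⟩
      exact ⟨i, seg h ▸ hz⟩
  · rw [polygon_eq, compl_compl]
    exact (far_out hC.isBounded).2

/-- If two boundary points of a simple polygon with rational corners see the whole boundary, then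
two boundary points with rational coordinates see the whole polygon. -/
theorem result (n : ℕ) (hn : 3 ≤ n) (v : ZMod n → ℚ × ℚ) (hv : Simple v) (g h : ℝ × ℝ)
    (hG : Guards (polygon v) {g, h} (frontier (polygon v))) :
    ∃ q r : ℚ × ℚ, q ≠ r ∧ Guards (polygon v) {pt q, pt r} (polygon v) := by
  obtain ⟨A, B, h1, h2, h3, h4, h0⟩ := main (gal hn hv) (hG.1 (Or.inl rfl)) (hG.1 (Or.inr rfl))
    fun z hz => by
      obtain ⟨_, rfl | rfl, h⟩ := hG.2 z hz
      · exact Or.inl h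
      · exact Or.inr h
  have h5 := full (gal hn hv) h0
  have rep : ∀ A, RP A → ∃ q, pt q = A := fun A h => by
    obtain ⟨x, hx⟩ := mem_K.1 h.1
    obtain ⟨y, hy⟩ := mem_K.1 h.2
    exact ⟨(x, y), Prod.ext hx hy⟩
  obtain ⟨q, rfl⟩ := rep A h1
  obtain ⟨r, rfl⟩ := rep B h2
  by_cases hqr : q = r
  · subst hqr
    obtain ⟨i, hi⟩ : ∃ i, q ≠ v i := by
      by_contra h6
      push Not at h6
      exact one_ne hn (hv.1 ((h6 1).symm.trans (h6 0)))
    refine ⟨q, v i, hi, ?_, fun z hz => ⟨_, Or.inl rfl, (h5 z hz).elim id id⟩⟩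
    rintro _ (rfl | rfl)
    · exact h3
    · rw [frontier_polygon hn hv]
      exact mem_iUnion.2 ⟨i, left_mem_segment _ _ _⟩
  · refine ⟨q, r, hqr, ?_, fun z hz => (h5 z hz).elim (fun h => ⟨_, Or.inl rfl, h⟩)
      fun h => ⟨_, Or.inr rfl, h⟩⟩
    rintro _ (rfl | rfl)
    · exact h3
    · exact h4

/-- The boundary-boundary form. -/
theorem boundary (n : ℕ) (hn : 3 ≤ n) (v : ZMod n → ℚ × ℚ) (hv : Simple v) (g h : ℝ × ℝ)
    (hG : Guards (polygon v) {g, h} (frontier (polygon v))) :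
    ∃ q r : ℚ × ℚ, q ≠ r ∧ Guards (polygon v) {pt q, pt r} (frontier (polygon v)) := by
  obtain ⟨q, r, h1, h2, h3⟩ := result n hn v hv g h hG
  exact ⟨q, r, h1, h2, fun z hz => h3 z ((gal hn hv).cl.frontier_subset hz)⟩

/-- A triangle. -/
def tri : ZMod 3 → ℚ × ℚ := fun i => if i = 0 then (0, 0) else if i = 1 then (1, 0) else (0, 1)

/-- The hypotheses hold for the triangle. -/
theorem tri_ok : Simple tri ∧
    Guards (polygon tri) {pt (tri 0), pt (tri 1)} (frontier (polygon tri)) := by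
  have all : ∀ i : ZMod 3, i = 0 ∨ i = 1 ∨ i = 2 := by decide
  have v0 : pt (tri 0) = (0, 0) := by simp [tri, pt]
  have v1 : pt (tri 1) = (1, 0) := by simp [tri, pt]
  have v2 : pt (tri 2) = (0, 1) := by
    have h1 : (2 : ZMod 3) ≠ 0 := by decide
    have h2 : (2 : ZMod 3) ≠ 1 := by decide
    simp [tri, pt, h1, h2]
  have a0 : (0 : ZMod 3) + 1 = 1 := rfl
  have a1 : (1 : ZMod 3) + 1 = 2 := rfl
  have a2 : (2 : ZMod 3) + 1 = 0 := rfl
  have e0 : ∀ z ∈ edge tri 0, z.2 = 0 := fun z hz => by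
    obtain ⟨t, -, -, rfl⟩ := mem_seg.1 hz
    simp [a0, v0, v1]
  have e1 : ∀ z ∈ edge tri 1, z.1 + z.2 = 1 := fun z hz => by
    obtain ⟨t, -, -, rfl⟩ := mem_seg.1 hz
    simp [a1, v1, v2]
  have e2 : ∀ z ∈ edge tri 2, z.1 = 0 := fun z hz => by
    obtain ⟨t, -, -, rfl⟩ := mem_seg.1 hz
    simp [a2, v0, v2]
  have hs : Simple tri := by
    refine ⟨by decide, fun i j h z hz => ?_⟩
    obtain ⟨x, y⟩ := z
    rcases all i with rfl | rfl | rfl <;> rcases all j with rfl | rfl | rfl <;>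
      first
        | exact absurd rfl h
        | (have h1 := hz.1
           have h2 := hz.2
           first | have h3 := e0 _ h1 | have h3 := e1 _ h1 | have h3 := e2 _ h1
           first | have h4 := e0 _ h2 | have h4 := e1 _ h2 | have h4 := e2 _ h2
           simp only [a0, a1, a2, v0, v1, v2, mem_inter_iff, mem_insert_iff, mem_singleton_iff,
             Prod.mk.injEq] at h3 h4 ⊢
           grind)
  have hP := gal le_rfl hs
  refine ⟨hs, ?_, fun z hz => ?_⟩
  · rw [frontier_polygon le_rfl hs]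
    rintro _ (rfl | rfl) <;> exact mem_iUnion.2 ⟨_, left_mem_segment _ _ _⟩
  · rw [frontier_polygon le_rfl hs] at hz
    obtain ⟨i, hi⟩ := mem_iUnion.1 hz
    have h1 := hP.sees_edge ⟨i, Or.inl rfl⟩
    rcases all i with rfl | rfl | rfl
    · exact ⟨_, Or.inl rfl, h1.sub (left_mem_segment _ _ _) hi⟩
    · exact ⟨_, Or.inr rfl, h1.sub (left_mem_segment _ _ _) hi⟩
    · exact ⟨_, Or.inl rfl, h1.sub (right_mem_segment _ _ _) hi⟩

end Pool.Agent.Results.MP_1b4b80_lc.TwoRational
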